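import Pool.Agent.helper93.PX.Spec

/-!
# Row CH: chains
-/

set_option autoImplicit false

namespace Pool.Agent.PX

/-- partial differences -/
noncomputable def CH_pd : ℝ → List ℝ → List ℝ
  | _, [] => []
  | x, e :: l => (x - e) :: CH_pd (x - e) l

theorem CH_pd_chain (E : Set ℝ) (T : List ℝ) (l : List ℝ) : ∀ x : ℝ, (∀ e ∈ l, e ∈ E) →
    List.IsChain (fun x y => x - y ∈ E) ((x - l.sum) :: T) →
    ((x - l.sum) :: T).getLast (List.cons_ne_nil _ _) = 1 →
    List.IsChain (fun x y => x - y ∈ E) (x :: (CH_pd x l ++ T)) ∧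
      (x :: (CH_pd x l ++ T)).getLast (List.cons_ne_nil _ _) = 1 := by
  induction l with
  | nil =>
    intro x _ h1 h2
    simp only [List.sum_nil, sub_zero] at h1 h2
    exact ⟨h1, h2⟩
  | cons e l ih =>
    intro x hl h1 h2
    have hs : x - (e :: l).sum = (x - e) - l.sum := by rw [List.sum_cons]; ring
    rw [hs] at h1
    simp only [hs] at h2
    obtain ⟨h3, h4⟩ := ih (x - e) (fun a ha => hl a (List.mem_cons_of_mem _ ha)) h1 h2
    refine ⟨?_, ?_⟩
    · show List.IsChain (fun x y => x - y ∈ E) (x :: (x - e) :: (CH_pd (x - e) l ++ T))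
      rw [List.isChain_cons_cons]
      refine ⟨?_, h3⟩
      have : x - (x - e) = e := by ring
      rw [this]
      exact hl e (List.mem_cons_self ..)
    · show (x :: (x - e) :: (CH_pd (x - e) l ++ T)).getLast _ = 1
      rw [List.getLast_cons_cons]
      exact h4

theorem CH_pd_mem (l : List ℝ) : ∀ x : ℝ, l ≠ [] → x - l.sum ∈ CH_pd x l := by
  induction l with
  | nil => intro x h; exact absurd rfl h
  | cons e l ih =>
    intro x _
    have hs : x - (e :: l).sum = (x - e) - l.sum := by rw [List.sum_cons]; ring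
    rw [hs]
    show x - e - l.sum ∈ (x - e) :: CH_pd (x - e) l
    by_cases hl : l = []
    · rw [hl]
      simp
    · exact List.mem_cons_of_mem _ (ih (x - e) hl)

theorem CH_aux (E : Set ℝ) (n : ℕ) : ∀ (F : Finset ℝ) (c : ℝ), F.card = n →
    (1 : ℝ) ∈ F → c ∈ F → (∀ x ∈ F, 1 ≤ x ∧ x ≤ c) →
    (∀ u ∈ F, ∀ v ∈ F, u < v → ∃ l : List ℝ, (∀ e ∈ l, e ∈ E) ∧ l.sum = v - u) →
    ∃ T : List ℝ, List.IsChain (fun x y => x - y ∈ E) (c :: T) ∧
      (c :: T).getLast (List.cons_ne_nil _ _) = 1 ∧ ∀ x ∈ F, x ≠ c → x ∈ T := by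
  induction n with
  | zero =>
    intro F c hF h1 _ _ _
    rw [Finset.card_eq_zero] at hF
    rw [hF] at h1
    exact absurd h1 (Finset.notMem_empty _)
  | succ n ih =>
    intro F c hF h1 hc hb hE
    by_cases hne : (F.erase c).Nonempty
    · have hlt : ∀ x ∈ F.erase c, x < c := fun x hx =>
        lt_of_le_of_ne (hb x (Finset.mem_of_mem_erase hx)).2 (Finset.ne_of_mem_erase hx)
      have h1c : (1 : ℝ) ≠ c := by
        obtain ⟨x, hx⟩ := hne
        have := hlt x hx
        have := (hb x (Finset.mem_of_mem_erase hx)).1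
        intro h
        linarith
      set c' := (F.erase c).max' hne with hc'
      have hc'F : c' ∈ F.erase c := Finset.max'_mem _ _
      obtain ⟨T', h3, h4, h5⟩ := ih (F.erase c) c' (by rw [Finset.card_erase_of_mem hc, hF]; rfl)
        (Finset.mem_erase.2 ⟨h1c, h1⟩) hc'F
        (fun x hx => ⟨(hb x (Finset.mem_of_mem_erase hx)).1, Finset.le_max' _ _ hx⟩)
        (fun u hu v hv huv => hE u (Finset.mem_of_mem_erase hu) v (Finset.mem_of_mem_erase hv) huv)
      obtain ⟨l, hl, hsum⟩ := hE c' (Finset.mem_of_mem_erase hc'F) c hc (hlt c' hc'F)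
      have hcl : c - l.sum = c' := by rw [hsum]; ring
      have hlne : l ≠ [] := by
        rintro rfl
        rw [List.sum_nil] at hsum
        have := hlt c' hc'F
        linarith
      have h6 := CH_pd_chain E T' l c hl (by rw [hcl]; exact h3) (by simp only [hcl]; exact h4)
      refine ⟨CH_pd c l ++ T', h6.1, h6.2, fun x hx hxc => ?_⟩
      rw [List.mem_append]
      by_cases hxc' : x = c'
      · left
        rw [hxc', ← hcl]
        exact CH_pd_mem l c hlne
      · right
        exact h5 x (Finset.mem_erase.2 ⟨hxc, hx⟩) hxc'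
    · rw [Finset.not_nonempty_iff_eq_empty] at hne
      have hone : ∀ x ∈ F, x = c := by
        intro x hx
        by_contra h
        have : x ∈ F.erase c := Finset.mem_erase.2 ⟨h, hx⟩
        rw [hne] at this
        exact absurd this (Finset.notMem_empty _)
      refine ⟨[], List.isChain_singleton _, ?_, fun x hx hxc => absurd (hone x hx) hxc⟩
      simp only [List.getLast_singleton]
      exact (hone 1 h1).symm

theorem CH : CH_stmt := by
  intro E F c hc _ h1 hcF hb hE
  obtain ⟨T, h2, h3, h4⟩ := CH_aux E F.card F c rfl h1 hcF hb hE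
  refine ⟨T, ?_, h3, h2, h4⟩
  rintro rfl
  simp only [List.getLast_singleton] at h3
  linarith

end Pool.Agent.PX
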