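import Mathlib
import Pool.Agent.helper66.PX.Spec

set_option autoImplicit false

open Polynomial

noncomputable section

namespace Pool.Agent.PX

universe u v w

theorem SM : SM_stmt.{v} := by
  intro R _ r hr
  have hne : (Ideal.span {(1 - C r * X : R[X])} : Ideal R[X]) ≠ ⊤ := by
    intro h
    have h1 : (1 : R[X]) ∈ Ideal.span {(1 - C r * X : R[X])} := by
      rw [h]; exact Submodule.mem_top
    rw [Ideal.mem_span_singleton'] at h1
    obtain ⟨p, hp⟩ := h1
    have hp' : p - p * C r * X = 1 := by
      rw [mul_sub, mul_one, ← mul_assoc] at hp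
      exact hp
    have h0 : p.coeff 0 = 1 := by
      have h2 := congrArg (fun q : R[X] => q.coeff 0) hp'
      simp only [coeff_sub, coeff_mul_X_zero, sub_zero, coeff_one_zero] at h2
      exact h2
    have hs : ∀ i : ℕ, p.coeff (i + 1) = p.coeff i * r := by
      intro i
      have h2 := congrArg (fun q : R[X] => q.coeff (i + 1)) hp'
      simp only [coeff_sub, coeff_mul_X, coeff_mul_C] at h2
      rw [coeff_one, if_neg (Nat.succ_ne_zero i)] at h2
      exact sub_eq_zero.mp h2
    have hpow : ∀ i : ℕ, p.coeff i = r ^ i := by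
      intro i
      induction i with
      | zero => rw [h0, pow_zero]
      | succ i ih => rw [hs, ih, pow_succ]
    have hz : p.coeff (p.natDegree + 1) = 0 :=
      coeff_eq_zero_of_natDegree_lt (Nat.lt_succ_self _)
    exact hr (p.natDegree + 1) (by rw [← hpow]; exact hz)
  obtain ⟨m, hm, hle⟩ := Ideal.exists_le_maximal _ hne
  exact ⟨m, hm, hle (Ideal.subset_span rfl)⟩

end Pool.Agent.PX
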